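import Pool.Agent.U573.PP.Word

/-! # Subgroups of small index in `p`-groups, Sylow subgroups of permutation groups -/

set_option autoImplicit false

open scoped commutatorElement

namespace Pool.Agent.U573.PP

open Subgroup

theorem derived_map {Q : Type*} [Group Q] (M : Subgroup Q) (hM : commutator Q ≤ M) (i : ℕ) :
    derivedSeries Q (i + 1) ≤ (derivedSeries M i).map M.subtype := by
  induction i with
  | zero =>
    rw [derivedSeries_zero, ← MonoidHom.range_eq_map, Subgroup.range_subtype, zero_add, derivedSeries_one]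
    exact hM
  | succ i ih =>
    rw [derivedSeries_succ, derivedSeries_succ (G := M), Subgroup.map_commutator]
    exact Subgroup.commutator_mono ih ih

/-- subgroups of index less than `p ^ (i + 1)` of a finite `p`-group contain the `i`-th derived subgroup -/
theorem derived_le {p : ℕ} [hp : Fact p.Prime] (i : ℕ) : ∀ (Q : Type) [Group Q] [Finite Q], IsPGroup p Q →
    ∀ H : Subgroup Q, H.index < p ^ (i + 1) → derivedSeries Q i ≤ H := by
  induction i with
  | zero =>
    intro Q _ _ hQ H hH
    obtain ⟨m, hm⟩ := hQ.index H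
    rw [hm, zero_add] at hH
    have h0 : m = 0 := by
      have := (Nat.pow_lt_pow_iff_right hp.out.one_lt).1 hH
      omega
    rw [h0, pow_zero] at hm
    rw [Subgroup.index_eq_one] at hm
    rw [hm]
    exact le_top
  | succ i ih =>
    intro Q _ _ hQ H hH
    by_cases hT : H = ⊤
    · rw [hT]; exact le_top
    obtain ⟨a, ha⟩ := IsPGroup.iff_card.1 hQ
    obtain ⟨b, hb⟩ := IsPGroup.iff_card.1 (hQ.to_subgroup H)
    have hba : b < a := by
      have h1 : Nat.card H ∣ Nat.card Q := Subgroup.card_subgroup_dvd_card H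
      rw [ha, hb] at h1
      have h2 := (Nat.pow_dvd_pow_iff_le_right hp.out.one_lt).1 h1
      rcases Nat.lt_or_ge b a with h | h
      · exact h
      · exfalso
        have h3 : b = a := le_antisymm h2 h
        apply hT
        apply Subgroup.eq_top_of_card_eq
        rw [ha, hb, h3]
    obtain ⟨c, rfl⟩ : ∃ c, a = c + 1 := ⟨a - 1, by omega⟩
    obtain ⟨M, hMc, hHM⟩ := Sylow.exists_subgroup_card_pow_prime_le (G := Q) p (n := b) (m := c)
      (by rw [ha]; exact pow_dvd_pow _ (Nat.le_succ c)) H hb (by omega)
    have hMi : M.index = p := by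
      have h1 := Subgroup.card_mul_index M
      rw [hMc, ha, pow_succ] at h1
      exact Nat.eq_of_mul_eq_mul_left (pow_pos hp.out.pos c) h1
    have hMn : M.Normal := by
      apply Subgroup.normal_of_index_eq_minFac_card
      rw [hMi, ha, hp.out.pow_minFac (Nat.succ_ne_zero c)]
    have hcom : commutator Q ≤ M := by
      have h1 : Nat.card (Q ⧸ M) = p := hMi
      have : IsCyclic (Q ⧸ M) := isCyclic_of_prime_card h1
      have hc : ∀ x y : Q ⧸ M, x * y = y * x := fun x y => (IsCyclic.commGroup (α := Q ⧸ M)).mul_comm x y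
      rw [commutator_def, Subgroup.commutator_le]
      intro x _ y _
      rw [← QuotientGroup.eq_one_iff, ← QuotientGroup.mk'_apply, map_commutatorElement,
        commutatorElement_eq_one_iff_mul_comm]
      exact hc _ _
    have h2 : (H.subgroupOf M).index < p ^ (i + 1) := by
      have h3 := Subgroup.relIndex_mul_index hHM
      rw [hMi] at h3
      rw [← h3, pow_succ] at hH
      exact Nat.lt_of_mul_lt_mul_right hH
    have h4 := ih M (hQ.to_subgroup M) (H.subgroupOf M) h2
    refine (derived_map M hcom i).trans ((Subgroup.map_mono h4).trans ?_)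
    rw [Subgroup.map_subgroupOf_eq_of_le hHM]

/-- the commutator words vanish on a `p`-group of permutations with orbits shorter than `p ^ (j + 1)` -/
theorem dv_eq_one {p : ℕ} [hp : Fact p.Prime] {V : Type} [Finite V] (P : Subgroup (Equiv.Perm V))
    (hP : IsPGroup p P) (j : ℕ) (h : ∀ v : V, (MulAction.orbit P v).ncard < p ^ (j + 1)) (x : ℕ → P) :
    dv j x = 1 := by
  have h1 : ∀ v : V, (dv j x) • v = v := by
    intro v
    have h2 := derived_le j P hP (MulAction.stabilizer P v) (by
      rw [MulAction.index_stabilizer]; exact h v) (dv_mem j x)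
    exact h2
  apply Subtype.ext
  apply Equiv.ext
  intro v
  exact h1 v

/-- a Sylow subgroup has orbits whose lengths are multiples of the full powers of `p` -/
theorem sylow_orbit {p : ℕ} [hp : Fact p.Prime] {V : Type} [Finite V] (Γ : Subgroup (Equiv.Perm V)) :
    ∃ P : Subgroup (Equiv.Perm V), P ≤ Γ ∧ IsPGroup p P ∧ ∀ (v : V) (k : ℕ),
      p ^ k ∣ (MulAction.orbit Γ v).ncard → p ^ k ≤ (MulAction.orbit P v).ncard := by
  obtain ⟨S⟩ : Nonempty (Sylow p Γ) := inferInstance
  refine ⟨(S : Subgroup Γ).map Γ.subtype, ?_, S.isPGroup'.map _, fun v k hk => ?_⟩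
  · rintro _ ⟨a, _, rfl⟩
    exact a.2
  set P : Subgroup (Equiv.Perm V) := (S : Subgroup Γ).map Γ.subtype with hPdef
  have hPG : IsPGroup p P := S.isPGroup'.map _
  have hPΓ : P ≤ Γ := by
    rintro _ ⟨a, _, rfl⟩
    exact a.2
  have hcP : Nat.card P = p ^ (Nat.card Γ).factorization p := by
    rw [← S.card_eq_multiplicity, hPdef]
    exact Nat.card_congr (Subgroup.equivMapOfInjective _ _ Γ.subtype_injective).symm.toEquiv
  have hG : Nat.card (MulAction.stabilizer Γ v) * (MulAction.orbit Γ v).ncard = Nat.card Γ := by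
    rw [← MulAction.index_stabilizer, Subgroup.card_mul_index]
  have hQ : Nat.card (MulAction.stabilizer P v) * (MulAction.orbit P v).ncard = Nat.card P := by
    rw [← MulAction.index_stabilizer, Subgroup.card_mul_index]
  obtain ⟨c, hc⟩ := IsPGroup.iff_card.1 (hPG.to_subgroup (MulAction.stabilizer P v))
  have hd : p ^ c ∣ Nat.card (MulAction.stabilizer Γ v) := by
    rw [← hc]
    let f : MulAction.stabilizer P v →* MulAction.stabilizer Γ v :=
      { toFun := fun a => ⟨⟨(a : P), hPΓ (a : P).2⟩, a.2⟩
        map_one' := rfl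
        map_mul' := fun _ _ => rfl }
    have hf : Function.Injective f := by
      intro a b hab
      have h1 : ((f a : Γ) : Equiv.Perm V) = ((f b : Γ) : Equiv.Perm V) := by rw [hab]
      apply Subtype.ext
      apply Subtype.ext
      exact h1
    exact Subgroup.card_dvd_of_injective f hf
  have h1 : p ^ (c + k) ∣ Nat.card Γ := by
    rw [← hG, pow_add]
    exact mul_dvd_mul hd hk
  have hG0 : Nat.card Γ ≠ 0 := Nat.card_pos.ne'
  have h2 : c + k ≤ (Nat.card Γ).factorization p := (hp.out.pow_dvd_iff_le_factorization hG0).1 h1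
  have h3 : p ^ (c + k) ≤ Nat.card P := by
    rw [hcP]
    exact Nat.pow_le_pow_right hp.out.pos h2
  rw [← hQ, hc, pow_add] at h3
  exact Nat.le_of_mul_le_mul_left h3 (pow_pos hp.out.pos c)

end Pool.Agent.U573.PP
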