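import Mathlib

/-! # The words of the derived series: `2 ^ j` letters, length at most `4 ^ j`, not trivial -/

set_option autoImplicit false

open scoped commutatorElement

namespace Pool.Agent.U573.PP

/-- the iterated commutators in disjoint letters -/
def dv {G : Type*} [Group G] : ℕ → (ℕ → G) → G
  | 0, x => x 0
  | j + 1, x => ⁅dv j x, dv j (fun i => x (i + 2 ^ j))⁆

theorem dv_hom {G H : Type*} [Group G] [Group H] (f : G →* H) (j : ℕ) :
    ∀ x : ℕ → G, f (dv j x) = dv j (fun i => f (x i)) := by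
  induction j with
  | zero => intro x; rfl
  | succ j ih =>
    intro x
    rw [dv, dv, map_commutatorElement, ih, ih]

theorem dv_congr {G : Type*} [Group G] (j : ℕ) :
    ∀ x y : ℕ → G, (∀ i, i < 2 ^ j → x i = y i) → dv j x = dv j y := by
  induction j with
  | zero => intro x y h; exact h 0 (by norm_num)
  | succ j ih =>
    intro x y h
    rw [dv, dv, ih x y fun i hi => h i (by rw [pow_succ]; omega),
      ih (fun i => x (i + 2 ^ j)) (fun i => y (i + 2 ^ j)) fun i hi => h _ (by rw [pow_succ]; omega)]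

theorem dv_mem {G : Type*} [Group G] (j : ℕ) : ∀ x : ℕ → G, dv j x ∈ derivedSeries G j := by
  induction j with
  | zero => intro x; rw [derivedSeries_zero]; exact Subgroup.mem_top _
  | succ j ih =>
    intro x
    rw [derivedSeries_succ, dv]
    exact Subgroup.commutator_mem_commutator (ih _) (ih _)

theorem dv_norm {α : Type*} [DecidableEq α] (j : ℕ) :
    ∀ x : ℕ → FreeGroup α, (∀ i, (x i).norm ≤ 1) → (dv j x).norm ≤ 4 ^ j := by
  induction j with
  | zero => intro x h; simpa [dv] using h 0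
  | succ j ih =>
    intro x h
    have h1 := ih x h
    have h2 := ih (fun i => x (i + 2 ^ j)) (fun i => h _)
    rw [dv, commutatorElement_def]
    have h3 := FreeGroup.norm_mul_le (dv j x * dv j (fun i => x (i + 2 ^ j)) * (dv j x)⁻¹)
      (dv j (fun i => x (i + 2 ^ j)))⁻¹
    have h4 := FreeGroup.norm_mul_le (dv j x * dv j (fun i => x (i + 2 ^ j))) (dv j x)⁻¹
    have h5 := FreeGroup.norm_mul_le (dv j x) (dv j (fun i => x (i + 2 ^ j)))
    rw [FreeGroup.norm_inv_eq] at h3 h4
    rw [pow_succ]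
    omega

/-- a cycle of length three -/
def cyc : Equiv.Perm (Fin 5) := ⟨![1, 2, 0, 3, 4], ![2, 0, 1, 3, 4], by decide, by decide⟩
def yy : Equiv.Perm (Fin 5) := ⟨![3, 4, 2, 0, 1], ![3, 4, 2, 0, 1], by decide, by decide⟩
def zz : Equiv.Perm (Fin 5) := ⟨![0, 3, 2, 1, 4], ![0, 3, 2, 1, 4], by decide, by decide⟩

theorem key : cyc = zz * ⁅cyc, yy * cyc * yy⁻¹⁆ * zz⁻¹ := by decide

theorem key' : cyc = ⁅zz * cyc * zz⁻¹, (zz * yy) * cyc * (zz * yy)⁻¹⁆ := by
  have h := key
  have h2 : zz * ⁅cyc, yy * cyc * yy⁻¹⁆ * zz⁻¹ =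
      ⁅zz * cyc * zz⁻¹, (zz * yy) * cyc * (zz * yy)⁻¹⁆ := by
    simp only [commutatorElement_def]
    group
  rw [h2] at h
  exact h

theorem cyc_ne : cyc ≠ 1 := by decide

theorem dv_perm (j : ℕ) : ∃ x : ℕ → Equiv.Perm (Fin 5), dv j x = cyc := by
  induction j with
  | zero => exact ⟨fun _ => cyc, rfl⟩
  | succ j ih =>
    obtain ⟨x, hx⟩ := ih
    refine ⟨fun i => if i < 2 ^ j then zz * x i * zz⁻¹ else
      (zz * yy) * x (i - 2 ^ j) * (zz * yy)⁻¹, ?_⟩
    rw [dv]
    have h1 : dv j (fun i => if i < 2 ^ j then zz * x i * zz⁻¹ else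
        (zz * yy) * x (i - 2 ^ j) * (zz * yy)⁻¹) = zz * cyc * zz⁻¹ := by
      rw [dv_congr j _ (fun i => MulAut.conj zz (x i)) fun i hi => by
        rw [if_pos hi]; rfl]
      have := dv_hom (MulAut.conj zz).toMonoidHom j x
      rw [hx] at this
      exact this.symm
    have h2 : dv j (fun i => (fun i => if i < 2 ^ j then zz * x i * zz⁻¹ else
        (zz * yy) * x (i - 2 ^ j) * (zz * yy)⁻¹) (i + 2 ^ j)) =
        (zz * yy) * cyc * (zz * yy)⁻¹ := by
      rw [dv_congr j _ (fun i => MulAut.conj (zz * yy) (x i)) fun i hi => by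
        show (if i + 2 ^ j < 2 ^ j then _ else _) = _
        rw [if_neg (by omega), Nat.add_sub_cancel]; rfl]
      have := dv_hom (MulAut.conj (zz * yy)).toMonoidHom j x
      rw [hx] at this
      exact this.symm
    rw [h1, h2]
    exact key'.symm

/-- the word -/
def word (j : ℕ) : FreeGroup (Fin (2 ^ j)) :=
  dv j (fun i => if h : i < 2 ^ j then FreeGroup.of ⟨i, h⟩ else 1)

theorem lift_word {G : Type*} [Group G] (j : ℕ) (x : Fin (2 ^ j) → G) :
    FreeGroup.lift x (word j) = dv j (fun i => if h : i < 2 ^ j then x ⟨i, h⟩ else 1) := by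
  rw [word, dv_hom]
  congr 1
  funext i
  split_ifs with h
  · simp
  · simp

theorem word_ne (j : ℕ) : word j ≠ 1 := by
  intro h
  obtain ⟨x, hx⟩ := dv_perm j
  have h1 := lift_word j (fun i : Fin (2 ^ j) => x i)
  rw [h, map_one, dv_congr j _ x fun i hi => by rw [dif_pos hi], hx] at h1
  exact cyc_ne h1.symm

theorem word_norm (j : ℕ) : (word j).norm ≤ 4 ^ j := by
  unfold word
  refine dv_norm j _ fun i => ?_
  split_ifs with h
  · rw [FreeGroup.norm_of]
  · rw [FreeGroup.norm_one]; exact Nat.zero_le _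

end Pool.Agent.U573.PP
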